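import Pool.Agent.Lib_MP_418a80_t4.Dual

/-!
# MP_418a80_an, T5: functionals on closed subgroups without lines; pure subgroups
-/

set_option autoImplicit false

open Topology Filter
open scoped RealInnerProductSpace

namespace Pool.Agent.AbCoc

universe z

section
variable {V : Type z} [NormedAddCommGroup V] [InnerProductSpace ℝ V] [FiniteDimensional ℝ V]

/-- closed subgroups without lines are discrete -/
theorem discrete_of_noLine (K : AddSubgroup V) (hK : IsClosed (K : Set V))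
    (hl : ∀ v : V, (∀ t : ℝ, t • v ∈ K) → v = 0) :
    DiscreteTopology (AddSubgroup.toIntSubmodule K) := by
  have hW : lineSpace K = ⊥ := by
    rw [eq_bot_iff]
    intro v hv
    rw [Submodule.mem_bot]
    exact hl v hv
  obtain ⟨ε, hε, hgap⟩ := exists_gap K hK
  refine discreteTopology_of_isOpen_singleton_zero ?_
  rw [Metric.isOpen_singleton_iff]
  refine ⟨ε, hε, fun y hy => ?_⟩
  apply Subtype.ext
  refine hgap y.1 y.2 ?_ ?_
  · rw [hW, Submodule.bot_orthogonal_eq_top]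
    exact Submodule.mem_top
  · rw [dist_zero_right] at hy
    exact hy

/-- integral functionals on closed subgroups without lines are inner products -/
theorem exists_inner_of_int (K : AddSubgroup V) (hK : IsClosed (K : Set V))
    (hl : ∀ v : V, (∀ t : ℝ, t • v ∈ K) → v = 0) (f : AddSubgroup.toIntSubmodule K →ₗ[ℤ] ℤ) :
    ∃ y : V, ∀ v (hv : v ∈ K), ⟪y, v⟫ = f ⟨v, hv⟩ := by
  classical
  let L : Submodule ℤ V := AddSubgroup.toIntSubmodule K
  have hdisc : DiscreteTopology L := discrete_of_noLine K hK hl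
  let F : Submodule ℝ V := Submodule.span ℝ (L : Set V)
  have hLF : ∀ x ∈ L, x ∈ F := fun x hx => Submodule.subset_span hx
  let L₁ : Submodule ℤ F := ZLattice.comap ℝ L F.subtype
  have : DiscreteTopology L₁ :=
    ZLattice.comap_discreteTopology ℝ L F.subtypeL.continuous Subtype.val_injective
  have : IsZLattice ℝ L₁ := ⟨Submodule.span_span_coe_preimage⟩
  have : Module.Free ℤ L₁ := ZLattice.module_free ℝ L₁
  have : Module.Finite ℤ L₁ := ZLattice.module_finite ℝ L₁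
  let b := Module.Free.chooseBasis ℤ L₁
  let B := b.ofZLatticeBasis ℝ L₁
  -- the functional on the lattice
  have hmem : ∀ x : L₁, ((x : F) : V) ∈ L := fun x => x.2
  obtain ⟨f', hf'⟩ : ∃ f' : L₁ →ₗ[ℤ] ℤ, ∀ x : L₁, f' x = f ⟨((x : F) : V), hmem x⟩ :=
    ⟨{ toFun := fun x => f ⟨((x : F) : V), hmem x⟩
       map_add' := fun x y => by
        rw [← map_add]
        rfl
       map_smul' := fun n x => by
        rw [← map_smul]
        rfl }, fun _ => rfl⟩
  obtain ⟨Φ, hΦ⟩ : ∃ Φ : F →ₗ[ℝ] ℝ, ∀ i, Φ (B i) = f' (b i) :=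
    ⟨B.constr ℝ fun i => (f' (b i) : ℝ), fun i => B.constr_basis ℝ _ i⟩
  have hΦL : ∀ x : L₁, Φ x = f' x := by
    intro x
    have h1 : x = ∑ i, b.repr x i • b i := (b.sum_repr x).symm
    have h2 : (x : F) = ∑ i, b.repr x i • B i := by
      conv_lhs => rw [h1]
      rw [AddSubmonoidClass.coe_finsetSum]
      refine Finset.sum_congr rfl fun i _ => ?_
      rw [b.ofZLatticeBasis_apply ℝ L₁ i]
      rfl
    rw [h2, map_sum]
    conv_rhs => rw [h1, map_sum]
    push_cast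
    refine Finset.sum_congr rfl fun i _ => ?_
    rw [map_zsmul, hΦ, map_smul]
    simp
  obtain ⟨y, hy⟩ : ∃ y : F, ∀ v : F, ⟪y, v⟫ = Φ v := by
    refine ⟨(InnerProductSpace.toDual ℝ F).symm (LinearMap.toContinuousLinearMap Φ),
      fun v => ?_⟩
    rw [InnerProductSpace.toDual_symm_apply]
    rfl
  refine ⟨(y : V), fun v hv => ?_⟩
  have hvF : v ∈ F := hLF v hv
  have h1 : ⟪(y : V), v⟫ = ⟪y, (⟨v, hvF⟩ : F)⟫ := rfl
  have h2 : (⟨v, hvF⟩ : F) ∈ L₁ := hv
  rw [h1, hy, hΦL ⟨_, h2⟩, hf']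

/-- a dual element which is primitive on a pure subgroup -/
theorem exists_dual_pure (K Λ : AddSubgroup V) (hK : IsClosed (K : Set V))
    (hl : ∀ v : V, (∀ t : ℝ, t • v ∈ K) → v = 0) (hΛ : Λ ≤ K) (hne : Λ ≠ ⊥)
    (hpure : ∀ v ∈ K, ∀ m : ℕ, 0 < m → m • v ∈ Λ → v ∈ Λ) :
    ∃ χ0 : V, (∀ v ∈ K, ∃ n : ℤ, ⟪χ0, v⟫ = n * (2 * Real.pi)) ∧
      ∃ l ∈ Λ, ⟪χ0, l⟫ = 2 * Real.pi := by
  classical
  let L : Submodule ℤ V := AddSubgroup.toIntSubmodule K
  have hdisc : DiscreteTopology L := discrete_of_noLine K hK hl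
  have : Module.Free ℤ L := inferInstance
  have : Module.Finite ℤ L := inferInstance
  let ΛL : Submodule ℤ L := (AddSubgroup.toIntSubmodule Λ).comap L.subtype
  have : Module.Finite ℤ (L ⧸ ΛL) := inferInstance
  have : Module.IsTorsionFree ℤ (L ⧸ ΛL) := by
    refine Module.IsTorsionFree.of_smul_eq_zero fun n x hx => ?_
    obtain ⟨x, rfl⟩ := ΛL.mkQ_surjective x
    rw [or_iff_not_imp_left]
    intro hn
    rw [← map_smul, Submodule.mkQ_apply, Submodule.Quotient.mk_eq_zero] at hx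
    rw [Submodule.mkQ_apply, Submodule.Quotient.mk_eq_zero]
    have h1 : n • (x : V) ∈ Λ := hx
    refine hpure x x.2 n.natAbs (Int.natAbs_pos.2 hn) ?_
    rcases Int.natAbs_eq n with h2 | h2
    · rw [h2, natCast_zsmul] at h1
      exact h1
    · rw [h2, neg_smul, natCast_zsmul] at h1
      exact neg_mem_iff.1 h1
  have : Module.Free ℤ (L ⧸ ΛL) := inferInstance
  obtain ⟨h, hh⟩ := Module.projective_lifting_property (ΛL.mkQ) (LinearMap.id) ΛL.mkQ_surjective
  -- the retraction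
  have hr : ∀ x : L, x - h (ΛL.mkQ x) ∈ ΛL := by
    intro x
    rw [← Submodule.Quotient.mk_eq_zero, ← Submodule.mkQ_apply, map_sub]
    have h1 : ΛL.mkQ (h (ΛL.mkQ x)) = ΛL.mkQ x := congrArg (fun g => g (ΛL.mkQ x)) hh
    rw [h1, sub_self]
  obtain ⟨r, hr'⟩ : ∃ r : L →ₗ[ℤ] ΛL, ∀ x, (r x : L) = x - h (ΛL.mkQ x) :=
    ⟨(LinearMap.id - h.comp ΛL.mkQ).codRestrict ΛL hr, fun _ => rfl⟩
  have hrΛ : ∀ x : ΛL, r x = x := by
    intro x
    apply Subtype.ext
    have h1 : ΛL.mkQ (x : L) = 0 := by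
      rw [Submodule.mkQ_apply, Submodule.Quotient.mk_eq_zero]
      exact x.2
    rw [hr', h1, map_zero, sub_zero]
  have : Module.Free ℤ ΛL := inferInstance
  let b := Module.Free.chooseBasis ℤ ΛL
  have hnt : Nontrivial ΛL := by
    obtain ⟨x, hx⟩ := (AddSubgroup.ne_bot_iff_exists_ne_zero).1 hne
    refine ⟨⟨⟨(x : V), hΛ x.2⟩, x.2⟩, 0, fun h0 => hx ?_⟩
    apply Subtype.ext
    exact congrArg (fun y : ΛL => ((y : L) : V)) h0
  obtain ⟨i0⟩ : Nonempty (Module.Free.ChooseBasisIndex ℤ ΛL) := b.index_nonempty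
  obtain ⟨y, hy⟩ := exists_inner_of_int K hK hl ((b.coord i0).comp r)
  refine ⟨(2 * Real.pi) • y, fun v hv => ⟨((b.coord i0).comp r) ⟨v, hv⟩, ?_⟩,
    ((b i0 : L) : V), (b i0).2, ?_⟩
  · rw [inner_smul_left, hy v hv]
    simp only [RCLike.conj_to_real]
    ring
  · have h1 : ((b i0 : L) : V) ∈ K := (b i0 : L).2
    rw [inner_smul_left, hy _ h1]
    have h2 : ((b.coord i0).comp r) ⟨((b i0 : L) : V), h1⟩ = 1 := by
      have h3 : r ⟨((b i0 : L) : V), h1⟩ = b i0 := hrΛ (b i0)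
      rw [LinearMap.comp_apply, h3, Module.Basis.coord_apply, b.repr_self, Finsupp.single_eq_same]
    rw [h2]
    simp

end

end Pool.Agent.AbCoc
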