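import Pool.Agent.Lib_MP_418a80_t4.KeyABInd
import Pool.Agent.Lib_MP_418a80_t5.LatPure

/-!
# MP_418a80_an, T5: the abelian step with torus directions, in covering form

`j : C → G` a continuous open surjection, `R : C → V` a continuous homomorphism with a continuous
section, `H = ker R.p`, on which `j` is a closed embedding. The action of `G` is pulled back to `C`;
the labels theorem needs only `KeyAll H`.
-/

set_option autoImplicit false
set_option linter.unusedVariables false
set_option linter.unusedSectionVars false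

open MeasureTheory Topology Filter
open scoped RealInnerProductSpace

namespace Pool.Agent.AbCoc

universe u v w w' z z' z''

section lift
variable {G : Type w} [TopologicalSpace G] {C : Type w'} [TopologicalSpace C]
  [LocallyCompactSpace C]

/-- compact sets lift along open surjections of locally compact spaces -/
theorem exists_compact_lift (j : C → G) (hjo : IsOpenMap j) (hs : Function.Surjective j) (D : Set G)
    (hD : IsCompact D) : ∃ D' : Set C, IsCompact D' ∧ D ⊆ j '' D' := by
  choose s hs using hs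
  choose Kc hKc hKn using fun c : C => exists_compact_mem_nhds c
  obtain ⟨t, ht, hcov⟩ := hD.elim_nhds_subcover (fun g => j '' Kc (s g)) fun g _ => by
    have h1 := hjo.image_mem_nhds (hKn (s g))
    rwa [hs] at h1
  refine ⟨⋃ g ∈ t, Kc (s g), t.isCompact_biUnion fun g _ => hKc _, fun x hx => ?_⟩
  have h1 := hcov hx
  simp only [Set.mem_iUnion] at h1
  obtain ⟨g, hg, c, hc, rfl⟩ := h1
  exact ⟨c, Set.mem_biUnion hg hc, rfl⟩

end lift

section step
variable {G : Type w} [Group G] [TopologicalSpace G] [IsTopologicalGroup G] [T2Space G]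
  [SecondCountableTopology G] [LocallyCompactSpace G]
  {C : Type w'} [Group C] [TopologicalSpace C] [IsTopologicalGroup C] [T2Space C]
  [SecondCountableTopology C] [LocallyCompactSpace C]
  {V : Type z} [NormedAddCommGroup V] [InnerProductSpace ℝ V] [FiniteDimensional ℝ V]

/-- **the circle step over a covering** -/
theorem keyAll_of_cover_circle {I : Type z''} {U : I → Type z'} [∀ i, NormedAddCommGroup (U i)]
    [∀ i, NormedSpace ℝ (U i)] [∀ i, FiniteDimensional ℝ (U i)] (j : C →* G) (hj : Continuous j)
    (hjo : IsOpenMap j) (hjs : Function.Surjective j) (R : VSec C V) (W : ∀ i, WtV R (U i))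
    (N : Subgroup C) (hN : ∀ c, c ∈ N ↔ R.p c = 0)
    (hjN : IsClosedEmbedding (j.comp N.subtype)) (hK : KeyAll.{u, v, w'} N) (chi0 : V)
    (h0 : chi0 ≠ 0) (N1 : Subgroup G)
    (hN1 : ∀ c, j c ∈ N1 ↔ ∃ n : ℤ, ⟪chi0, R.p c⟫ = n * (2 * Real.pi))
    (hK1 : KeyAll.{u, v, w} N1)
    (hchi : ∀ v, (∀ i l, (W i).ρ v ((W i).ρ v l - l) = (W i).ρ v l - l) → ch ⟪chi0, v⟫ = 1) :
    KeyAll.{u, v, w} G := by
  have hNc : IsClosed (N1 : Set G) := by
    rw [← (hjo.isQuotientMap hj hjs).isClosed_preimage]
    have e : j ⁻¹' (N1 : Set G) = (fun c => ch ⟪chi0, R.p c⟫) ⁻¹' {1} := by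
      ext c
      rw [Set.mem_preimage, SetLike.mem_coe, hN1, Set.mem_preimage, Set.mem_singleton_iff,
        ch_eq_one_iff]
    rw [e]
    exact isClosed_singleton.preimage (continuous_ch.comp (continuous_const.inner R.hp))
  have hnorm : N1.Normal := by
    constructor
    intro n hn g
    obtain ⟨n, rfl⟩ := hjs n
    obtain ⟨g, rfl⟩ := hjs g
    rw [← map_mul, ← map_inv, ← map_mul, hN1, R.p_conj_eq]
    exact (hN1 _).1 hn
  have hNcl : IsClosed (N : Set C) := R.isClosed_of_mem_iff N hN
  have : LocallyCompactSpace N := hNcl.isClosedEmbedding_subtypeVal.locallyCompactSpace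
  have : SecondCountableTopology N :=
    inferInstanceAs (SecondCountableTopology ((N : Set C) : Set C))
  obtain ⟨s, hs, hps⟩ := R.exists_path chi0 h0
  refine keyAll_of_stepATyp fun ν _ hR A _ K _ _ _ T S hSO => ?_
  let := CStarAlgebra.spectralOrder A
  have := CStarAlgebra.spectralOrderedRing A
  refine S.stepATyp_of_cm j hj hjs (fun D hD => exists_compact_lift j hjo hjs D hD) ?_
  have hnorm' : (N1.comap j).Normal := Subgroup.Normal.comap hnorm j
  refine (S.cm j hj).stepATyp_circle R.p R.hp R.pmul chi0 s hs hps (N1.comap j)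
    (fun c => (Subgroup.mem_comap).trans (hN1 c)) (fun b hb hb0 k ρ hρ => ?_)
    fun b1 b2 h1 h10 h2 h20 => ?_
  · refine (S.cm j hj).labA_AB R W (fun i χ b' hb' hb0' =>
      (S.cm j hj).exists_neltV_key R (W i) χ N hN (fun χ' hχ' => ?_) hb' hb0')
      ((k : ℝ) • chi0) (fun v hv => ?_) ρ hρ b hb hb0
    · exact hK.key_twist ν S (j.comp N.subtype) (hj.comp continuous_subtype_val) hjN hR hSO 2
        (tw2 χ') (tw2_cont hχ')
    · obtain ⟨n, hn⟩ := (ch_eq_one_iff _).1 (hchi v hv)
      rw [real_inner_smul_left, hn, ch_eq_one_iff]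
      exact ⟨k * n, by push_cast; ring⟩
  · refine S.goodN_cm j hj hjs N1 s ?_
    exact S.goodN_of_keyAll ν hR hSO N1 hNc hK1 (fun t => j (s t)) (hj.comp hs)
      ((S.cm_isPrj_iff j hj hjs b1).1 h1) ((S.cm_isPrj_iff j hj hjs b2).1 h2) h10 h20

/-- the induction: torus directions first -/
theorem keyAll_cover_aux {I : Type z''} {U : I → Type z'} [∀ i, NormedAddCommGroup (U i)]
    [∀ i, NormedSpace ℝ (U i)] [∀ i, FiniteDimensional ℝ (U i)] (n : ℕ) :
    ∀ (C : Type w') [Group C] [TopologicalSpace C] [IsTopologicalGroup C] [T2Space C]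
      [SecondCountableTopology C] [LocallyCompactSpace C]
      (G : Type w) [Group G] [TopologicalSpace G] [IsTopologicalGroup G] [T2Space G]
      [SecondCountableTopology G] [LocallyCompactSpace G] (j : C →* G) (_ : Continuous j)
      (_ : IsOpenMap j) (_ : Function.Surjective j)
      (V : Type z) [NormedAddCommGroup V] [InnerProductSpace ℝ V] [FiniteDimensional ℝ V]
      (R : VSec C V) (_ : IsClosedEmbedding (j.comp R.ker.subtype)) (W : ∀ i, WtV R (U i))
      (K : AddSubgroup V), Module.finrank ℝ V = n →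
      IsClosed (K : Set V) → (∀ v : V, (∀ t : ℝ, t • v ∈ K) → v = 0) →
      (∀ v, (∀ i l, (W i).ρ v ((W i).ρ v l - l) = (W i).ρ v l - l) → v ∈ K) →
      (∀ c, j c = 1 → R.p c ∈ K) →
      (∀ v ∈ K, ∀ m : ℕ, 0 < m → (∃ c, j c = 1 ∧ R.p c = m • v) → ∃ c, j c = 1 ∧ R.p c = v) →
      KeyAll.{u, v, w'} R.ker → R.ker ≠ ⊥ → (K ≠ ⊥ → KTower.{u, v, w'} (⊤ : Subgroup R.ker)) →
      KeyAll.{u, v, w} G := by
  induction n with
  | zero =>
    intro C _ _ _ _ _ _ G _ _ _ _ _ _ j hj hjo hjs V _ _ _ R hjN W K hfr hKc hKl hK hΓ hpure hH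
      hne ht
    have hs : Subsingleton V := Module.finrank_zero_iff.1 hfr
    have hcl := R.isClosed_ker
    have : LocallyCompactSpace R.ker := hcl.isClosedEmbedding_subtypeVal.locallyCompactSpace
    have : SecondCountableTopology R.ker :=
      inferInstanceAs (SecondCountableTopology ((R.ker : Set C) : Set C))
    refine KeyAll.congr (j.comp R.ker.subtype) hjN (fun g => ?_) hH
    obtain ⟨c, rfl⟩ := hjs g
    exact ⟨⟨c, Subsingleton.elim _ _⟩, rfl⟩
  | succ n ih =>
    intro C _ _ _ _ _ _ G _ _ _ _ _ _ j hj hjo hjs V _ _ _ R hjN W K hfr hKc hKl hK hΓ hpure hH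
      hne ht
    by_cases hker : ∀ c, j c = 1 → c = 1
    · -- `j` is an isomorphism
      have hinj : Function.Injective j := (injective_iff_map_eq_one j).2 hker
      have hemb : IsClosedEmbedding j :=
        ⟨(IsOpenEmbedding.of_continuous_injective_isOpenMap hj hinj hjo).isEmbedding, by
          rw [hjs.range_eq]
          exact isClosed_univ⟩
      exact KeyAll.congr j hemb hjs (keyAll_ab R W K hKc hKl hK hH hne ht)
    · push Not at hker
      obtain ⟨c0, hc0, hc01⟩ := hker
      have hfact : Fact (Module.finrank ℝ V = n + 1) := ⟨hfr⟩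
      -- the subgroup `p (ker j)`
      obtain ⟨Λ, hΛ⟩ : ∃ Λ : AddSubgroup V, ∀ v, v ∈ Λ ↔ ∃ c, j c = 1 ∧ R.p c = v := by
        refine ⟨{ carrier := {v | ∃ c, j c = 1 ∧ R.p c = v}
                  add_mem' := ?_
                  zero_mem' := ⟨1, map_one j, R.p_one⟩
                  neg_mem' := ?_ }, fun _ => Iff.rfl⟩
        · rintro a b ⟨c, hc, rfl⟩ ⟨d, hd, rfl⟩
          exact ⟨c * d, by rw [map_mul, hc, hd, mul_one], R.pmul c d⟩
        · rintro a ⟨c, hc, rfl⟩
          exact ⟨c⁻¹, by rw [map_inv, hc, inv_one], R.p_inv c⟩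
      have hΛK : Λ ≤ K := by
        intro v hv
        obtain ⟨c, hc, rfl⟩ := (hΛ v).1 hv
        exact hΓ c hc
      have hkerN : ∀ c, j c = 1 → R.p c = 0 → c = 1 := by
        intro c hc hp
        have h1 : (j.comp R.ker.subtype) ⟨c, hp⟩ = (j.comp R.ker.subtype) 1 := by
          rw [map_one]
          exact hc
        exact congrArg Subtype.val (hjN.injective h1)
      have hΛne : Λ ≠ ⊥ := by
        intro h
        have h1 : R.p c0 ∈ Λ := (hΛ _).2 ⟨c0, hc0, rfl⟩
        rw [h, AddSubgroup.mem_bot] at h1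
        exact hc01 (hkerN c0 hc0 h1)
      obtain ⟨chi0, hchiK, l, hl, hlchi⟩ := exists_dual_pure K Λ hKc hKl hΛK hΛne
        fun v hv m hm hmv => by
          obtain ⟨c, hc, hcv⟩ := (hΛ _).1 hmv
          exact (hΛ v).2 (hpure v hv m hm ⟨c, hc, hcv⟩)
      obtain ⟨c1, hc1, rfl⟩ := (hΛ l).1 hl
      have h0 : chi0 ≠ 0 := by
        rintro rfl
        rw [inner_zero_left] at hlchi
        have := Real.pi_pos
        linarith
      obtain ⟨V', hV'⟩ : ∃ V' : Submodule ℝ V, V' = (ℝ ∙ chi0)ᗮ := ⟨_, rfl⟩
      have hfr' : Module.finrank ℝ V' = n := by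
        rw [hV']
        exact Submodule.finrank_orthogonal_span_singleton h0
      have hmem : ∀ v, v ∈ V' ↔ ⟪chi0, v⟫ = 0 := fun v => by
        rw [hV']
        exact Submodule.mem_orthogonal_singleton_iff_inner_right
      have hpw : ∀ k : ℤ, j (c1 ^ k) = 1 ∧ ⟪chi0, R.p (c1 ^ k)⟫ = k * (2 * Real.pi) := by
        intro k
        have h1 : R.p (c1 ^ k) = k • R.p c1 := by
          obtain ⟨P, hP⟩ : ∃ P : C →* Multiplicative V, ∀ c, (P c).toAdd = R.p c :=
            ⟨{ toFun := fun c => Multiplicative.ofAdd (R.p c)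
               map_one' := by rw [R.p_one]; rfl
               map_mul' := fun a b => by rw [R.pmul]; rfl }, fun _ => rfl⟩
          rw [← hP, ← hP, map_zpow]
          rfl
        refine ⟨by rw [map_zpow, hc1, one_zpow], ?_⟩
        rw [h1, ← Int.cast_smul_eq_zsmul ℝ, inner_smul_right, hlchi]
      -- the image of `p⁻¹ V'`
      have hpc := R.isClosed_pre V'
      have : LocallyCompactSpace (R.pre V') := hpc.isClosedEmbedding_subtypeVal.locallyCompactSpace
      have : SecondCountableTopology (R.pre V') :=
        inferInstanceAs (SecondCountableTopology ((R.pre V' : Set C) : Set C))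
      obtain ⟨N1, hN1⟩ : ∃ N1 : Subgroup G, N1 = (R.pre V').map j := ⟨_, rfl⟩
      have hN1m : ∀ c, j c ∈ N1 ↔ ∃ k : ℤ, ⟪chi0, R.p c⟫ = k * (2 * Real.pi) := by
        intro c
        rw [hN1, Subgroup.mem_map]
        constructor
        · rintro ⟨x, hx, hxc⟩
          obtain ⟨k, hk⟩ := hchiK (R.p (x⁻¹ * c)) (hΓ _ (by
            rw [map_mul, map_inv, hxc, inv_mul_cancel]))
          refine ⟨k, ?_⟩
          rw [R.pmul, R.p_inv, inner_add_right, inner_neg_right, (hmem _).1 hx, neg_zero,
            zero_add] at hk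
          exact hk
        · rintro ⟨k, hk⟩
          refine ⟨c * (c1 ^ k)⁻¹, ?_, ?_⟩
          · rw [R.mem_pre, hmem, R.pmul, R.p_inv, inner_add_right, inner_neg_right, hk,
              (hpw k).2]
            ring
          · rw [map_mul, map_inv, (hpw k).1, inv_one, mul_one]
      have hN1c : IsClosed (N1 : Set G) := by
        rw [← (hjo.isQuotientMap hj hjs).isClosed_preimage]
        have e : j ⁻¹' (N1 : Set G) = (R.circ chi0 : Set C) := by
          ext c
          rw [Set.mem_preimage, SetLike.mem_coe, hN1m]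
          exact (R.mem_circ chi0 c).symm
        rw [e]
        exact R.isClosed_circ chi0
      have : LocallyCompactSpace N1 := hN1c.isClosedEmbedding_subtypeVal.locallyCompactSpace
      have : SecondCountableTopology N1 :=
        inferInstanceAs (SecondCountableTopology ((N1 : Set G) : Set G))
      -- the restriction of `j`
      obtain ⟨j', hj'⟩ : ∃ j' : R.pre V' →* N1, ∀ x, (j' x : G) = j x :=
        ⟨{ toFun := fun x => ⟨j x, by rw [hN1]; exact Subgroup.mem_map_of_mem j x.2⟩
           map_one' := Subtype.ext (map_one j)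
           map_mul' := fun a b => Subtype.ext (map_mul j _ _) }, fun _ => rfl⟩
      have hj'c : Continuous j' := by
        rw [continuous_induced_rng]
        have e : (Subtype.val ∘ j') = fun x : R.pre V' => j x := funext hj'
        rw [e]
        exact hj.comp continuous_subtype_val
      have hj's : Function.Surjective j' := by
        rintro ⟨g, hg⟩
        rw [hN1] at hg
        obtain ⟨x, hx, rfl⟩ := Subgroup.mem_map.1 hg
        exact ⟨⟨x, hx⟩, Subtype.ext (hj' _)⟩
      have hj'o : IsOpenMap j' := by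
        intro O hO
        obtain ⟨O1, hO1, rfl⟩ := isOpen_induced_iff.1 hO
        have hO2 : IsOpen (O1 ∩ (fun c => ⟪chi0, R.p c⟫) ⁻¹' Set.Ioo (-(2 * Real.pi))
            (2 * Real.pi)) :=
          hO1.inter (isOpen_Ioo.preimage (continuous_const.inner R.hp))
        have e : j' '' (Subtype.val ⁻¹' O1) = Subtype.val ⁻¹' (j '' (O1 ∩ (fun c =>
            ⟪chi0, R.p c⟫) ⁻¹' Set.Ioo (-(2 * Real.pi)) (2 * Real.pi))) := by
          ext y
          constructor
          · rintro ⟨x, hx, rfl⟩
            refine ⟨x, ⟨hx, ?_⟩, (hj' x).symm⟩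
            have h1 : ⟪chi0, R.p (x : C)⟫ = 0 := (hmem _).1 x.2
            rw [Set.mem_preimage, h1, Set.mem_Ioo]
            have := Real.pi_pos
            constructor <;> linarith
          · rintro ⟨c, ⟨hc, hc2⟩, hcy⟩
            have h1 : j c ∈ N1 := by rw [hcy]; exact y.2
            obtain ⟨k, hk⟩ := (hN1m c).1 h1
            rw [Set.mem_preimage, hk, Set.mem_Ioo] at hc2
            have hpi := Real.pi_pos
            have h3 : (-1 : ℝ) < k := by nlinarith [hc2.1]
            have h4 : (k : ℝ) < 1 := by nlinarith [hc2.2]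
            have h5 : (-1 : ℤ) < k := by exact_mod_cast h3
            have h6 : k < (1 : ℤ) := by exact_mod_cast h4
            have h7 : k = 0 := by omega
            rw [h7, Int.cast_zero, zero_mul] at hk
            exact ⟨⟨c, (hmem _).2 hk⟩, hc, Subtype.ext ((hj' _).trans hcy)⟩
        rw [e]
        exact (hjo _ hO2).preimage continuous_subtype_val
      -- the kernel
      have hkc := R.isClosed_ker
      have : LocallyCompactSpace R.ker := hkc.isClosedEmbedding_subtypeVal.locallyCompactSpace
      have : SecondCountableTopology R.ker :=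
        inferInstanceAs (SecondCountableTopology ((R.ker : Set C) : Set C))
      have hkc' := (R.sub V').isClosed_ker
      have : LocallyCompactSpace (R.sub V').ker :=
        hkc'.isClosedEmbedding_subtypeVal.locallyCompactSpace
      have : SecondCountableTopology (R.sub V').ker :=
        inferInstanceAs (SecondCountableTopology (((R.sub V').ker : Set (R.pre V')) :
          Set (R.pre V')))
      obtain ⟨i, hi, his⟩ := R.exists_kerIso V'
      have hjN' : IsClosedEmbedding (j'.comp (R.sub V').ker.subtype) := by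
        obtain ⟨θ, hθ⟩ : ∃ θ : (R.sub V').ker → R.ker, ∀ y, ((θ y : R.ker) : C)
            = ((y : R.pre V') : C) :=
          ⟨fun y => ⟨((y : R.pre V') : C), (R.mem_ker_sub V' y).1 y.2⟩, fun _ => rfl⟩
        have hθe : IsClosedEmbedding θ := by
          have h2 : IsClosedEmbedding (fun y : (R.sub V').ker => ((y : R.pre V') : C)) :=
            hpc.isClosedEmbedding_subtypeVal.comp hkc'.isClosedEmbedding_subtypeVal
          have h3 : (fun y : (R.sub V').ker => ((y : R.pre V') : C)) = Subtype.val ∘ θ :=
            funext fun y => (hθ y).symm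
          rw [h3] at h2
          exact IsClosedEmbedding.of_comp hkc.isClosedEmbedding_subtypeVal.isEmbedding h2
        have h1 : IsClosedEmbedding (Subtype.val ∘ (j'.comp (R.sub V').ker.subtype)) := by
          have e : (Subtype.val ∘ (j'.comp (R.sub V').ker.subtype))
              = (j.comp R.ker.subtype) ∘ θ := by
            funext y
            change ((j' ((y : R.pre V')) : N1) : G) = j ((θ y : R.ker) : C)
            rw [hj', hθ]
          rw [e]
          exact hjN.comp hθe
        exact IsClosedEmbedding.of_comp hN1c.isClosedEmbedding_subtypeVal.isEmbedding h1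
      have hKN1 : KeyAll.{u, v, w} N1 := by
        refine ih (R.pre V') N1 j' hj'c hj'o hj's V' (R.sub V') hjN' (fun i => (W i).sub V')
          (K.comap V'.subtype.toAddMonoidHom) hfr' (hKc.preimage continuous_subtype_val) ?_ ?_ ?_
          ?_ (KeyAll.congr i hi his hH) ?_ ?_
        · intro v hv
          apply Subtype.ext
          exact hKl v fun t => hv t
        · intro v hv
          exact hK v hv
        · intro c hc
          refine hΓ c ?_
          rw [← hj', hc]
          rfl
        · rintro v hv m hm ⟨c, hc, hcv⟩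
          obtain ⟨d, hd, hdv⟩ := hpure v hv m hm ⟨c, by rw [← hj', hc]; rfl, by
            exact congrArg Subtype.val hcv⟩
          refine ⟨⟨d, ?_⟩, Subtype.ext ((hj' _).trans hd), Subtype.ext hdv⟩
          rw [R.mem_pre, hdv]
          exact v.2
        · obtain ⟨x, hx⟩ := (Subgroup.ne_bot_iff_exists_ne_one).1 hne
          refine (Subgroup.ne_bot_iff_exists_ne_one).2 ⟨i x, fun h => hx ?_⟩
          exact hi.injective (by rw [h, map_one])
        · intro hK'
          have h1 : K ≠ ⊥ := by
            intro h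
            apply hK'
            rw [h]
            ext v
            rw [AddSubgroup.mem_comap, AddSubgroup.mem_bot, AddSubgroup.mem_bot]
            exact ⟨fun h => Subtype.ext h, fun h => congrArg Subtype.val h⟩
          have h2 := (ht h1).map i hi
          have e : (⊤ : Subgroup R.ker).map i = ⊤ := by
            rw [← MonoidHom.range_eq_map, MonoidHom.range_eq_top]
            exact his
          rwa [e] at h2
      refine keyAll_of_cover_circle j hj hjo hjs R W R.ker (fun _ => Iff.rfl) hjN hH chi0 h0 N1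
        hN1m hKN1 fun v hv => ?_
      rw [ch_eq_one_iff]
      exact hchiK v (hK v hv)

/-- **The abelian step with torus directions.** `j : C → G` an open continuous surjection, `R : C → V`
a continuous homomorphism with a continuous section and kernel `H`, on which `j` is a closed
embedding; `K ⊆ V` a closed subgroup without lines which contains `p (ker j)` and all `v` with
`(ρ_i v - 1) ^ 2 = 0` for all `i`; `p (ker j)` is pure in `K`. If `KeyAll H`, `H ≠ 1` and `H` has a
tower if `K ≠ 0`, then `KeyAll G`. -/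
theorem keyAll_cover {I : Type z''} {U : I → Type z'} [∀ i, NormedAddCommGroup (U i)]
    [∀ i, NormedSpace ℝ (U i)] [∀ i, FiniteDimensional ℝ (U i)] (j : C →* G) (hj : Continuous j)
    (hjo : IsOpenMap j) (hjs : Function.Surjective j) (R : VSec C V)
    (hjN : IsClosedEmbedding (j.comp R.ker.subtype)) (W : ∀ i, WtV R (U i))
    (K : AddSubgroup V) (hKc : IsClosed (K : Set V)) (hKl : ∀ v : V, (∀ t : ℝ, t • v ∈ K) → v = 0)
    (hK : ∀ v, (∀ i l, (W i).ρ v ((W i).ρ v l - l) = (W i).ρ v l - l) → v ∈ K)
    (hΓ : ∀ c, j c = 1 → R.p c ∈ K)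
    (hpure : ∀ v ∈ K, ∀ m : ℕ, 0 < m → (∃ c, j c = 1 ∧ R.p c = m • v) →
      ∃ c, j c = 1 ∧ R.p c = v)
    (hH : KeyAll.{u, v, w'} R.ker) (hne : R.ker ≠ ⊥)
    (ht : K ≠ ⊥ → KTower.{u, v, w'} (⊤ : Subgroup R.ker)) : KeyAll.{u, v, w} G :=
  keyAll_cover_aux (Module.finrank ℝ V) C G j hj hjo hjs V R hjN W K rfl hKc hKl hK hΓ hpure hH
    hne ht

end step

end Pool.Agent.AbCoc
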