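import Pool.Agent.Lib_MP_418a80_t5.StepE
import Pool.Agent.Lib_MP_418a80_tl.TSE
import Pool.Agent.Lib_MP_418a80_tl.TEig
import Pool.Agent.Lib_MP_418a80_tl.TF1
import Pool.Agent.Lib_MP_418a80_con.CClass

/-!
# MP_418a80_an, [TL]: towers with vector and torus layers, class level
-/

set_option autoImplicit false
set_option linter.unusedVariables false
set_option linter.unusedSectionVars false

open Topology Filter MeasureTheory
open scoped RealInnerProductSpace ComplexConjugate

namespace Pool.Agent.AbCoc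

universe u v w z

/-- `NDescE N N'` for all strictly outer actions -/
structure NDescEAll.{u', v', w'} {G : Type w'} [Group G] [TopologicalSpace G]
    (N N' : Subgroup G) : Prop where
  out : ∀ [IsTopologicalGroup G] [T2Space G] [SecondCountableTopology G] [LocallyCompactSpace G]
    [MeasurableSpace G] [BorelSpace G] (μ : Measure G) [μ.IsHaarMeasure], Reiter μ →
    ∀ (A : Type u') [CStarAlgebra A] (K : Type v') [NormedAddCommGroup K] [InnerProductSpace ℂ K]
      [CompleteSpace K] (T : TrAlg A K) (S : TrAct G T), S.SO μ Set.univ → S.NDescE N N'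

/-- `StarE N` for all strictly outer actions -/
structure StarEAll.{u', v', w'} {G : Type w'} [Group G] [TopologicalSpace G]
    (N : Subgroup G) : Prop where
  out : ∀ [IsTopologicalGroup G] [T2Space G] [SecondCountableTopology G] [LocallyCompactSpace G]
    [MeasurableSpace G] [BorelSpace G] (μ : Measure G) [μ.IsHaarMeasure], Reiter μ →
    ∀ (A : Type u') [CStarAlgebra A] (K : Type v') [NormedAddCommGroup K] [InnerProductSpace ℂ K]
      [CompleteSpace K] (T : TrAlg A K) (S : TrAct G T), S.SO μ Set.univ → S.StarE N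

/-- towers for `NDescEAll`, with a compact bottom -/
inductive NTwE.{u', v', w'} {G : Type w'} [Group G] [TopologicalSpace G] : Subgroup G → Prop
  | bot (B : Subgroup G) (hB : IsCompact (B : Set G)) : NTwE B
  | step (N N' : Subgroup G) (hle : N' ≤ N) (hd : NDescEAll.{u', v', w'} N N') (h : NTwE N') :
      NTwE N

section
variable {A : Type u} [CStarAlgebra A] {K : Type v}
  [NormedAddCommGroup K] [InnerProductSpace ℂ K] [CompleteSpace K]
  {G : Type w} [Group G] [TopologicalSpace G] [IsTopologicalGroup G] [T2Space G]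
  [SecondCountableTopology G] [LocallyCompactSpace G] [MeasurableSpace G] [BorelSpace G]
  (μ : Measure G) [μ.IsHaarMeasure] {T : TrAlg A K} (S : TrAct G T)

include μ

theorem TrAct.nTowerE_of_nTwE (hR : Reiter μ) (hSO : S.SO μ Set.univ) {N : Subgroup G}
    (h : NTwE.{u, v, w} N) : S.NTowerE N := by
  induction h with
  | bot B hB => exact TrAct.NTowerE.bot B hB
  | step N N' hle hd _ ih => exact TrAct.NTowerE.step N N' hle (hd.out μ hR A K T S hSO) ih

end

section
variable {G : Type w} [Group G] [TopologicalSpace G] {N N' : Subgroup G}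

theorem NDescEAll.nDescAll (h : NDescEAll.{u, v, w} N N') (hle : N' ≤ N) :
    NDescAll.{u, v, w} N N' :=
  ⟨fun μ _ hR A _ K _ _ _ T S hSO => TrAct.NDescE.nDesc S hle (h.out μ hR A K T S hSO)⟩

theorem NTwE.nTw (h : NTwE.{u, v, w} N) : NTw.{u, v, w} N := by
  induction h with
  | bot B hB => exact NTw.bot B hB
  | step N N' hle hd _ ih => exact NTw.step N N' hle (hd.nDescAll hle) ih

/-- vector layers, normal case, unitary eigenvectors -/
theorem NDescEAll.of_layer {m : ℕ} {p : G → EuclideanSpace ℝ (Fin m)}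
    (hN : IsClosed (N : Set G)) (hp : IsLayer N N' p) (hK : KeyAll.{u, v, w} N) :
    NDescEAll.{u, v, w} N N' := by
  refine ⟨fun μ _ hR A _ K _ _ _ T S hSO => ?_⟩
  obtain ⟨h1, h2⟩ := key_eig_of_keyAll μ S hR hSO hN hp hK
  exact S.nDescE_of_layer m N N' hN p hp h1 h2

/-- torus layers, normal case, unitary eigenvectors -/
theorem NDescEAll.of_tlayer {m : ℕ} {p : G → EuclideanSpace ℝ (Fin m)}
    (hN : IsClosed (N : Set G)) (hp : IsTLayer N N' p) (hK : KeyAll.{u, v, w} N)
    (hT : NTwE.{u, v, w} N') : NDescEAll.{u, v, w} N N' := by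
  refine ⟨fun μ _ hR A _ K _ _ _ T S hSO => ?_⟩
  obtain ⟨h1, h2⟩ := key_eigZ_of_keyAll μ S hR hSO hN hp hK
  have hF := S.fixK_of_SO μ hSO
  have hF1 := S.fixK1_of_SO μ hSO
  have hT' := S.nTowerE_of_nTwE μ hR hSO hT
  exact S.nDescE_of_tlayer m N N' hN p hp h1 h2
    (S.scE_of_tlayer m N N' hN p hp h1 h2 (S.memE_of_ntowerE hF hT')
      (S.scE_of_ntowerE hF hF1 hT'))

/-- **`StarEAll`** from `KeyAll` and towers of the subgroups of finite index -/
theorem StarEAll.of (hK : ∀ P : Subgroup G, FiNor P N → KeyAll.{u, v, w} P)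
    (hT : ∀ P : Subgroup G, FiNor P N → NTwE.{u, v, w} P) : StarEAll.{u, v, w} N := by
  refine ⟨fun μ _ hR A _ K _ _ _ T S hSO => ?_⟩
  have hF := S.fixK_of_SO μ hSO
  have hF1 := S.fixK1_of_SO μ hSO
  refine S.starE_of N (fun P hP => ?_)
    (fun P hP => S.memE_of_ntowerE hF (S.nTowerE_of_nTwE μ hR hSO (hT P hP)))
    fun P hP => S.scE_of_ntowerE hF hF1 (S.nTowerE_of_nTwE μ hR hSO (hT P hP))
  have hc := hP.closed
  have : LocallyCompactSpace P := hc.isClosedEmbedding_subtypeVal.locallyCompactSpace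
  have : SecondCountableTopology P :=
    inferInstanceAs (SecondCountableTopology ((P : Set G) : Set G))
  exact (hK P hP).key_cm μ S P.subtype continuous_subtype_val hc.isClosedEmbedding_subtypeVal hR
    hSO

/-- torus layers, commensurated case -/
theorem CDescAll.of_tlayer {m : ℕ} {p : G → EuclideanSpace ℝ (Fin m)}
    (hN : IsClosed (N : Set G)) (hp : IsTLayer N N' p) (hK : KeyAll.{u, v, w} N)
    (hstar : StarEAll.{u, v, w} N) : CDescAll.{u, v, w} N N' := by
  refine ⟨fun μ _ hR A _ K _ _ _ T S hSO => ?_⟩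
  obtain ⟨h1, h2⟩ := key_eigZ_of_keyAll μ S hR hSO hN hp hK
  exact S.cDesc_of_tlayer m N N' hN p hp (hstar.out μ hR A K T S hSO) h2

end

end Pool.Agent.AbCoc
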