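import Pool.Agent.Lib_MP_418a80_con.CGlue
import Pool.Agent.Lib_MP_418a80_sol.SV6

/-!
# MP_418a80_an, T5, [FIN-A]: groups with an open subgroup which is compact-by-(simply connected
solvable)
-/

set_option autoImplicit false
set_option linter.unusedVariables false

open Topology TopologicalSpace
open scoped Pointwise

namespace Pool.Agent.AbCoc

universe u v w

section
variable {G : Type w} [Group G] [TopologicalSpace G] [IsTopologicalGroup G] [T2Space G]
  [SecondCountableTopology G] [LocallyCompactSpace G]

/-- noncompact groups with an open subgroup `L` and a compact normal subgroup `B` of `L` such that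
`L / B` is a simply connected solvable Lie group -/
theorem keyAll_of_open_compact_scsolv [NoncompactSpace G] (L B : Subgroup G)
    [(B.subgroupOf L).Normal] (hL : IsOpen (L : Set G)) (hBc : IsCompact (B : Set G))
    (hB : B ≤ L) (h : SCSolv (L ⧸ B.subgroupOf L)) : KeyAll.{u, v, w} G := by
  by_cases hne : B = L
  · -- `L` is compact
    subst hne
    refine keyAll_of_euclByCo B 0 1 hL continuous_const (fun x => ⟨1, Subsingleton.elim _ _⟩) ?_
    have hc : CompactSpace B := isCompact_iff_compactSpace.1 hBc
    have e : (((1 : B →* Multiplicative (EuclideanSpace ℝ (Fin 0))).ker : Subgroup B) : Set B)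
        = Set.univ := by
      ext x
      simp
    rw [e]
    exact isCompact_univ
  · have hLc : IsClosed (L : Set G) := L.isClosed_of_isOpen hL
    have hBL : IsClosed ((B.subgroupOf L : Subgroup L) : Set L) :=
      hBc.isClosed.preimage continuous_subtype_val
    have : LocallyCompactSpace L := hLc.isClosedEmbedding_subtypeVal.locallyCompactSpace
    have : SecondCountableTopology L :=
      inferInstanceAs (SecondCountableTopology ((L : Set G) : Set G))
    have : T3Space (L ⧸ B.subgroupOf L) := inferInstance
    have : SecondCountableTopology (L ⧸ B.subgroupOf L) := inferInstance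
    refine keyAll_of_open_compact hL hBc hB hne ?_
    refine SCSolv.kTower ⊤ ?_ ?_
    · rw [Subgroup.coe_top]
      exact isClosed_univ
    · exact h.congr Subgroup.topEquiv.symm (continuous_id.subtype_mk _) continuous_subtype_val

end

end Pool.Agent.AbCoc
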