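import Pool.Agent.Lib_MP_418a80_t5.GlueE
import Pool.Agent.Lib_MP_418a80_t3.T3Class
import Pool.Agent.Lib_MP_418a80_sol.SV9

/-!
# MP_418a80_an, T5, [FIN-B]: groups with an open subgroup which is compact-by-(connected solvable)
-/

set_option autoImplicit false
set_option linter.unusedVariables false

open Topology TopologicalSpace
open scoped Pointwise

namespace Pool.Agent.AbCoc

universe u v w w'

section
variable {G : Type w} [Group G] [TopologicalSpace G] [IsTopologicalGroup G] [T2Space G]
  [SecondCountableTopology G] [LocallyCompactSpace G]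

/-- noncompact groups with a compact open subgroup -/
theorem keyAll_of_open_compact' [NoncompactSpace G] (L : Subgroup G) (hL : IsOpen (L : Set G))
    (hLc : IsCompact (L : Set G)) : KeyAll.{u, v, w} G := by
  refine keyAll_of_euclByCo L 0 1 hL continuous_const (fun x => ⟨1, Subsingleton.elim _ _⟩) ?_
  have hc : CompactSpace L := isCompact_iff_compactSpace.1 hLc
  have e : (((1 : L →* Multiplicative (EuclideanSpace ℝ (Fin 0))).ker : Subgroup L) : Set L)
      = Set.univ := by
    ext x
    simp
  rw [e]
  exact isCompact_univ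

/-- **noncompact groups with an open subgroup `L` and a compact normal subgroup `B` of `L` such that
`L / B` is a connected solvable Lie group**, i.e. the image of a simply connected solvable Lie group
`C` under a continuous open homomorphism with countable kernel -/
theorem keyAll_of_open_compact_solv [NoncompactSpace G] (L B : Subgroup G)
    [(B.subgroupOf L).Normal] (hL : IsOpen (L : Set G)) (hBc : IsCompact (B : Set G))
    (hB : B ≤ L) {C : Type w'} [Group C] [TopologicalSpace C] [IsTopologicalGroup C]
    (h : SCSolv C) (j : C →* L ⧸ B.subgroupOf L) (hj : Continuous j) (hjo : IsOpenMap j)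
    (hjs : Function.Surjective j) (hjk : Countable j.ker) : KeyAll.{u, v, w} G := by
  have hLc : IsClosed (L : Set G) := L.isClosed_of_isOpen hL
  obtain ⟨B', hn', hBB', hB', hBc', hR⟩ := exists_enlarge L B hLc hBc hB h j hj hjo hjs hjk
  by_cases hne : B' = L
  · exact keyAll_of_open_compact' L hL (hne ▸ hBc')
  · have hBL : IsClosed ((B'.subgroupOf L : Subgroup L) : Set L) :=
      hBc'.isClosed.preimage continuous_subtype_val
    have : LocallyCompactSpace L := hLc.isClosedEmbedding_subtypeVal.locallyCompactSpace
    have : SecondCountableTopology L :=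
      inferInstanceAs (SecondCountableTopology ((L : Set G) : Set G))
    have : T3Space (L ⧸ B'.subgroupOf L) := inferInstance
    have : SecondCountableTopology (L ⧸ B'.subgroupOf L) := inferInstance
    have : Nontrivial (L ⧸ B'.subgroupOf L) := by
      obtain ⟨g, hgL, hgB⟩ := SetLike.exists_of_lt (lt_of_le_of_ne hB' hne)
      refine ⟨⟨((⟨g, hgL⟩ : L) : L ⧸ B'.subgroupOf L), 1, fun h => hgB ?_⟩⟩
      have h1 := (QuotientGroup.eq_one_iff (N := B'.subgroupOf L) (⟨g, hgL⟩ : L)).1 h
      exact Subgroup.mem_subgroupOf.1 h1
    obtain ⟨Q1, N', m, b, p, p', hQ1, hN', hl, ht, hK, hK1, hKN, hNne, hT⟩ :=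
      hR.exists_layers
    have hKt : KeyAll.{u, v, w} (⊤ : Subgroup (L ⧸ B'.subgroupOf L)) := by
      have hct : IsClosed ((⊤ : Subgroup (L ⧸ B'.subgroupOf L)) : Set (L ⧸ B'.subgroupOf L)) := by
        rw [Subgroup.coe_top]
        exact isClosed_univ
      have : LocallyCompactSpace (⊤ : Subgroup (L ⧸ B'.subgroupOf L)) :=
        hct.isClosedEmbedding_subtypeVal.locallyCompactSpace
      have : SecondCountableTopology (⊤ : Subgroup (L ⧸ B'.subgroupOf L)) :=
        inferInstanceAs (SecondCountableTopology
          (((⊤ : Subgroup (L ⧸ B'.subgroupOf L)) : Set (L ⧸ B'.subgroupOf L)) :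
            Set (L ⧸ B'.subgroupOf L)))
      let e : (L ⧸ B'.subgroupOf L) ≃ₜ (⊤ : Subgroup (L ⧸ B'.subgroupOf L)) :=
        { toEquiv := (Subgroup.topEquiv (G := L ⧸ B'.subgroupOf L)).symm.toEquiv
          continuous_toFun := continuous_id.subtype_mk _
          continuous_invFun := continuous_subtype_val }
      exact KeyAll.congr (Subgroup.topEquiv (G := L ⧸ B'.subgroupOf L)).symm.toMonoidHom
        e.isClosedEmbedding e.surjective hK
    exact keyAll_of_open_compact_mixed hL hBc' hB' hne
      (MTower.of_layers Q1 N' p p' hQ1 hl ht hKt hK1 hT)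

end

end Pool.Agent.AbCoc
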