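import Pool.Agent.Lib_MP_418a80_tl.TA
import Pool.Agent.Lib_MP_418a80_tl.TB
import Pool.Agent.Lib_MP_418a80_tl.TV
import Pool.Agent.Lib_MP_418a80_tl.TPolar
import Pool.Agent.Lib_MP_418a80_tl.TNv

/-!
# MP_418a80_an, [TL]: torus layers in the descent, normal and commensurated case
-/

set_option autoImplicit false
set_option linter.unusedVariables false
set_option linter.unusedSectionVars false

open Topology Filter MeasureTheory
open scoped RealInnerProductSpace ComplexConjugate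

namespace Pool.Agent.AbCoc

universe u v w z

section
variable {G : Type w} [Group G] [TopologicalSpace G] {m : ℕ} {M N N' : Subgroup G} {g : G}
  {p : G → EuclideanSpace ℝ (Fin m)}

/-- the next member of the tower, torus layer -/
theorem Cms.nextT (h : Cms N M g) (hp : IsTLayer N N' p) (hcl : IsClosed (N' : Set G))
    (hpsi : ∀ q : Fin m → ℤ, ∀ s ∈ N, g * s * g⁻¹ ∈ N →
      pch p (zv q) (g * s * g⁻¹) = pch p (zv q) s) : Cms N' (M ⊓ N') g where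
  fi := h.fi.inf hp.le hcl
  inv s hs := by
    have h1 := h.inv s hs.1
    have e : g * (g⁻¹ * s * g) * g⁻¹ = s := by group
    have h2 : g * (g⁻¹ * s * g) * g⁻¹ ∈ N := by rw [e]; exact hp.le hs.2
    refine (hp.ker _ h1).1 fun q => ?_
    have h3 := hpsi q _ h1 h2
    rw [e, (hp.ker s (hp.le hs.2)).2 hs.2 q] at h3
    exact h3.symm
  cnj s hs := by
    have h1 := h.cnj s hs.1
    refine (hp.ker _ h1).1 fun q => ?_
    rw [hpsi q s (hp.le hs.2) h1, (hp.ker s (hp.le hs.2)).2 hs.2 q]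

end

section
variable {A : Type u} [CStarAlgebra A] {K : Type v} [NormedAddCommGroup K]
  [InnerProductSpace ℂ K] [CompleteSpace K]
  {G : Type w} [Group G] [TopologicalSpace G] [IsTopologicalGroup G] [T2Space G]
  [SecondCountableTopology G] [LocallyCompactSpace G] {T : TrAlg A K} (S : TrAct G T)

/-- the common part of all torus steps -/
theorem TrAct.torus_core (m : ℕ) (N N' : Subgroup G) (hN : IsClosed (N : Set G))
    (p : G → EuclideanSpace ℝ (Fin m)) (hp : IsTLayer N N' p) (heig : S.EigZ N p)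
    {w : A} (h1 : star w * w = 1) (h2 : w * star w = 1) (g : G) (M : Subgroup G)
    (hM : Cms N M g) (hw : ∀ t ∈ N, g⁻¹ * t * g ∈ N → ∃ c : ℂ, S.α t w = c • w)
    (hfix : S.FixU N (S.bw h1 h2 g))
    (hsc : ∀ (q : Fin m → ℤ) (C : A), (∀ s ∈ N, g⁻¹ * s * g ∈ N →
      S.α s C = (pch p (zv q) (g⁻¹ * s * g) * conj (pch p (zv q) s)) • C) →
      S.Intw (N : Set G) 1 C → ∃ c : ℂ, C = c • (1 : A)) :
    ∃ h ∈ N, (∀ q : Fin m → ℤ, ∀ s ∈ N, (h⁻¹ * g) * s * (h⁻¹ * g)⁻¹ ∈ N →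
        pch p (zv q) ((h⁻¹ * g) * s * (h⁻¹ * g)⁻¹) = pch p (zv q) s) ∧
      ∃ (h1' : star (S.α h⁻¹ w) * S.α h⁻¹ w = 1) (h2' : S.α h⁻¹ w * star (S.α h⁻¹ w) = 1),
        S.FixU N' (S.bw h1' h2' (h⁻¹ * g)) := by
  have hTw := S.twc_bw_e h1 h2 g hw
  have hC := S.fixC_of_fixU N hN _ hTw.iso hfix
  obtain ⟨c, hc, hchi⟩ := S.exists_scalZ N N' hN p hp heig _ g hTw hC hsc
  obtain ⟨v, hv⟩ := S.exists_vZ N p heig _ hTw.iso c hc
  obtain ⟨h, hh, hhv⟩ := hp.surj v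
  have hE := S.scalZ_one N p _ c hc h hh fun q => by rw [hv, hhv]
  have hh' : h⁻¹ ∈ N := N.inv_mem hh
  have hw1 : star (S.α h⁻¹ w) * S.α h⁻¹ w = 1 := by rw [← map_star, ← map_mul, h1, map_one]
  have hw2 : S.α h⁻¹ w * star (S.α h⁻¹ w) = 1 := by rw [← map_star, ← map_mul, h2, map_one]
  have he : ∀ a, S.α h⁻¹ (S.bw h1 h2 g a) = S.bw hw1 hw2 (h⁻¹ * g) a := by
    intro a
    rw [S.bw_apply, S.bw_apply, map_mul, map_mul, map_star, ← S.mul]
  have hE' : S.ScalZ N p (S.bw hw1 hw2 (h⁻¹ * g)) fun _ => 1 := by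
    intro ε hε
    obtain ⟨D, κ, hD, hDN, hκ, h3⟩ := hE ε hε
    exact ⟨D, κ, hD, hDN, hκ, fun q x hx => by rw [← he]; exact h3 q x hx⟩
  have hM' : Cms N M (h⁻¹ * g) := hM.shift hh
  have hw' : ∀ t ∈ N, (h⁻¹ * g)⁻¹ * t * (h⁻¹ * g) ∈ N →
      ∃ c : ℂ, S.α t (S.α h⁻¹ w) = c • S.α h⁻¹ w := by
    intro t ht htg
    have e1 : g⁻¹ * (h * t * h⁻¹) * g = (h⁻¹ * g)⁻¹ * t * (h⁻¹ * g) := by group
    obtain ⟨d, hd⟩ := hw (h * t * h⁻¹) (N.mul_mem (N.mul_mem hh ht) hh') (by rw [e1]; exact htg)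
    have e2 : t * h⁻¹ = h⁻¹ * (h * t * h⁻¹) := by group
    exact ⟨d, by rw [← S.mul, e2, S.mul, hd, map_smul]⟩
  have hTw' := S.twc_bw_e hw1 hw2 (h⁻¹ * g) hw'
  have hpsi' : ∀ q : Fin m → ℤ, ∀ s ∈ N, (h⁻¹ * g) * s * (h⁻¹ * g)⁻¹ ∈ N →
      pch p (zv q) ((h⁻¹ * g) * s * (h⁻¹ * g)⁻¹) = pch p (zv q) s := by
    intro q s hs hgs
    have e : h⁻¹ * g * s * (h⁻¹ * g)⁻¹ = h⁻¹ * (g * s * g⁻¹) * h⁻¹⁻¹ := by group
    have hgs' : g * s * g⁻¹ ∈ N := by
      have h3 := N.mul_mem (N.mul_mem hh hgs) hh'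
      have e2 : h * (h⁻¹ * g * s * (h⁻¹ * g)⁻¹) * h⁻¹ = g * s * g⁻¹ := by group
      rwa [e2] at h3
    have e3 : g⁻¹ * (g * s * g⁻¹) * g = s := by group
    have h4 := hchi q _ hgs' (by rw [e3]; exact hs)
    rw [e3] at h4
    rw [e, hp.conj_eq q hh' hgs', ← h4]
  exact ⟨h, hh, hpsi', hw1, hw2, S.fixU_of_scalZ_twc m N N' hN p hp heig _ (h⁻¹ * g) M hM' hTw'
    hpsi' hE'⟩

/-- `Ad w` does not change if `w` is replaced by `α_h(w)`, `w` an eigenvector of `h` -/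
theorem TrAct.bw_eig {w : A} (h1 : star w * w = 1) (h2 : w * star w = 1) {h : G} {c : ℂ}
    (hc : S.α h w = c • w) (h1' : star (S.α h w) * S.α h w = 1)
    (h2' : S.α h w * star (S.α h w) = 1) (g : G) (a : A) :
    S.bw h1' h2' g a = S.bw h1 h2 g a := by
  have hc1 := TrAct.norm_eig (TrAct.ne_zero_of_unitary T h1) hc
  rw [S.bw_apply, S.bw_apply, hc, TrAct.ad_smul hc1]

/-- `ScE` from `MemE`, `ScE` of the kernel of a torus layer -/
theorem TrAct.scE_of_tlayer (m : ℕ) (N N' : Subgroup G) (hN : IsClosed (N : Set G))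
    (p : G → EuclideanSpace ℝ (Fin m)) (hp : IsTLayer N N' p) (hkey : (S.sub N).Key)
    (heig : S.EigZ N p) (hmem : S.MemE N') (hsc : S.ScE N') : S.ScE N := by
  intro w h1 h2 hw hfix
  have hcms : Cms N N (1 : G) := ⟨FiNor.refl_c hN, fun s hs => by simpa using hs,
    fun s hs => by simpa using hs⟩
  obtain ⟨h, hh, hpsi, h1', h2', hf⟩ := S.torus_core m N N' hN p hp heig h1 h2 1 N hcms
    (fun t ht _ => hw t ht) hfix (fun q C hC hi => by
      refine ⟨T.τ C, S.scalar_of_intw N hN hkey (fun s hs => ?_) hi⟩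
      have h3 := hC s hs (by simpa using hs)
      have e : (1 : G)⁻¹ * s * 1 = s := by group
      rw [e] at h3
      have h4 : pch p (zv q) s * conj (pch p (zv q) s) = 1 := by
        rw [Complex.mul_conj, Complex.normSq_eq_norm_sq, norm_pch]
        norm_num
      rw [h3, h4, one_smul])
  have hh' : h⁻¹ ∈ N := N.inv_mem hh
  obtain ⟨c, hc⟩ := hw h⁻¹ hh'
  have hf1 : S.FixU N' (S.bw h1 h2 (h⁻¹ * 1)) := by
    intro ε hε
    obtain ⟨D, κ, hD, hDN, hκ, h3⟩ := hf ε hε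
    exact ⟨D, κ, hD, hDN, hκ, fun u hu => by
      rw [← S.bw_eig h1 h2 hc h1' h2' (h⁻¹ * 1) u]
      exact h3 u hu⟩
  have hnor : ∀ s, s ∈ N' ↔ (h⁻¹ * 1) * s * (h⁻¹ * 1)⁻¹ ∈ N' := by
    intro s
    rw [mul_one]
    constructor
    · intro hs
      exact hp.nor hh' hs
    · intro hs
      have h5 := hp.nor hh hs
      have e : h * (h⁻¹ * s * h⁻¹⁻¹) * h⁻¹ = s := by group
      rwa [e] at h5
  have h6 := hmem w h1 h2 (hw.mono hp.le) (h⁻¹ * 1) hnor hf1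
  exact hsc w h1 h2 (hw.mono hp.le) (S.fixU_one h1 h2 h6 hf1)

/-- torus layers, normal case, unitary eigenvectors -/
theorem TrAct.nDescE_of_tlayer (m : ℕ) (N N' : Subgroup G) (hN : IsClosed (N : Set G))
    (p : G → EuclideanSpace ℝ (Fin m)) (hp : IsTLayer N N' p) (hkey : (S.sub N).Key)
    (heig : S.EigZ N p) (hscN : S.ScE N) : S.NDescE N N' := by
  intro w h1 h2 hw g hg hfix
  have hg' : ∀ s ∈ N, g⁻¹ * s * g ∈ N := by
    intro s hs
    rw [hg]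
    have e : g * (g⁻¹ * s * g) * g⁻¹ = s := by group
    rwa [e]
  have hcms : Cms N N g := ⟨FiNor.refl_c hN, hg', fun s hs => (hg s).1 hs⟩
  obtain ⟨h, hh, hpsi, h1', h2', hf⟩ := S.torus_core m N N' hN p hp heig h1 h2 g N hcms
    (fun t ht _ => hw t ht) hfix (fun q C hC hi =>
      ⟨T.τ C, S.scalar_of_eig N hN hkey hscN (fun s hs => ⟨_, hC s hs (hg' s hs)⟩) hi⟩)
  have hh' : h⁻¹ ∈ N := N.inv_mem hh
  obtain ⟨c, hc⟩ := hw h⁻¹ hh'
  have hn := nor_shift hg hh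
  refine ⟨h, hh, fun s => ?_, fun ε hε => ?_⟩
  · constructor
    · intro hs
      have hsN := hp.le hs
      have hsN' := (hn s).1 hsN
      refine (hp.ker _ hsN').1 fun q => ?_
      rw [hpsi q s hsN hsN']
      exact (hp.ker s hsN).2 hs q
    · intro hs
      have hsN : s ∈ N := (hn s).2 (hp.le hs)
      refine (hp.ker s hsN).1 fun q => ?_
      rw [← hpsi q s hsN (hp.le hs)]
      exact (hp.ker _ (hp.le hs)).2 hs q
  · obtain ⟨D, κ, hD, hDN, hκ, h3⟩ := hf ε hε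
    exact ⟨D, κ, hD, hDN, hκ, fun u hu => by
      rw [← S.bw_eig h1 h2 hc h1' h2' (h⁻¹ * g) u]
      exact h3 u hu⟩

/-- torus layers, commensurated case -/
theorem TrAct.cDesc_of_tlayer (m : ℕ) (N N' : Subgroup G) (hN : IsClosed (N : Set G))
    (p : G → EuclideanSpace ℝ (Fin m)) (hp : IsTLayer N N' p)
    (hstar : S.StarE N) (heig : S.EigZ N p) : S.CDesc N N' := by
  intro w h1 h2 g M hM hw hfix
  obtain ⟨h, hh, hpsi, h1', h2', hf⟩ := S.torus_core m N N' hN p hp heig h1 h2 g M hM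
    (fun t ht htg => ⟨1, by rw [hw t ht htg, one_smul]⟩) hfix (fun q C hC hi =>
      ⟨T.τ C, hstar M hM.fi C (fun s hs => ⟨_, hC s (hM.fi.le hs) (hM.inv s hs)⟩) hi⟩)
  have hh' : h⁻¹ ∈ N := N.inv_mem hh
  have hN'c : IsClosed (N' : Set G) := hp.isClosed_ker hN
  refine ⟨h, hh, M ⊓ N', (hM.shift hh).nextT hp hN'c hpsi, S.α h⁻¹ w, h1', h2', ?_, hf⟩
  intro t ht htg
  have e1 : g⁻¹ * (h * t * h⁻¹) * g = (h⁻¹ * g)⁻¹ * t * (h⁻¹ * g) := by group
  have h4 := hw (h * t * h⁻¹) (N.mul_mem (N.mul_mem hh (hp.le ht)) hh')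
    (by rw [e1]; exact hp.le htg)
  have e2 : t * h⁻¹ = h⁻¹ * (h * t * h⁻¹) := by group
  rw [← S.mul, e2, S.mul, h4]

end

end Pool.Agent.AbCoc
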