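import Pool.Agent.Lib_MP_418a80_t5.FinB
import Pool.Agent.Lib_MP_418a80_t3.NilClass

/-!
# MP_418a80_an, T5: the class of groups of the statement
-/

set_option autoImplicit false
set_option linter.unusedVariables false

open Topology TopologicalSpace
open scoped Pointwise

namespace Pool.Agent.AbCoc

universe u v w

/-- `Q` is the image of a simply connected solvable Lie group `C` under a continuous open
homomorphism with countable kernel (connected solvable Lie groups `Q`, with their universal
covering `C`) -/
def ConnSolv (Q : Type w) [Group Q] [TopologicalSpace Q] : Prop :=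
  ∃ (C : Type w) (_ : Group C) (_ : TopologicalSpace C) (_ : IsTopologicalGroup C) (j : C →* Q),
    SCSolv C ∧ Continuous j ∧ IsOpenMap j ∧ Function.Surjective j ∧ Countable j.ker

/-- the smallest class of topological groups which contains
* the noncompact groups with an open subgroup `L` and a compact normal subgroup `B` of `L` such that
  `L / B` is a connected solvable Lie group;
* the groups contracting to a closed subgroup of the class. -/
inductive CoSolvClass.{w'} : (G : Type w') → [Group G] → [TopologicalSpace G] → Prop
  | solvable (G : Type w') [Group G] [TopologicalSpace G] [NoncompactSpace G] (L B : Subgroup G)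
      [(B.subgroupOf L).Normal] (hL : IsOpen (L : Set G)) (hBc : IsCompact (B : Set G))
      (hB : B ≤ L) (h : ConnSolv (L ⧸ B.subgroupOf L)) : CoSolvClass G
  | contraction (G : Type w') [Group G] [TopologicalSpace G] (H : Subgroup G)
      (hH : IsClosed (H : Set G)) (hc : ∀ D : Set G, IsCompact D → ∃ C : Set G, IsCompact C ∧
        C ⊆ (H : Set G) ∧ ∀ V ∈ 𝓝 (1 : G), ∃ z ∈ H, ∀ s ∈ D, z⁻¹ * s * z ∈ C * V)
      (h : CoSolvClass H) : CoSolvClass G

theorem CoSolvClass.keyAll {G : Type w} [Group G] [TopologicalSpace G] (h : CoSolvClass G) :
    ∀ [IsTopologicalGroup G] [T2Space G] [SecondCountableTopology G] [LocallyCompactSpace G],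
      KeyAll.{u, v, w} G := by
  induction h with
  | solvable G L B hL hBc hB h =>
    intro _ _ _ _
    obtain ⟨C, _, _, _, j, hC, hj, hjo, hjs, hjk⟩ := h
    exact keyAll_of_open_compact_solv L B hL hBc hB hC j hj hjo hjs hjk
  | contraction G H hH hc h ih =>
    intro _ _ _ _
    have : LocallyCompactSpace H := hH.isClosedEmbedding_subtypeVal.locallyCompactSpace
    have : SecondCountableTopology H :=
      inferInstanceAs (SecondCountableTopology ((H : Set G) : Set G))
    exact keyAll_of_contracts H.subtype hH.isClosedEmbedding_subtypeVal
      (contracts_of_subset H hH hc) ih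

end Pool.Agent.AbCoc
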